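import Pool.Agent.Lib.MP_bc6f6d_pr.Main

set_option autoImplicit false

open Pool.Agent.Lib.MP_bc6f6d_pr
open scoped NNReal

namespace Pool.Agent.Results.MP_bc6f6d_pr.Uniform

/-- Uniform survival of the contact process on dynamical long-range percolation above the static
percolation threshold. -/
theorem result {V : Type} (G : SimpleGraph V) (hconn : G.Connected)
    (htrans : ∀ x y, ∃ φ : G ≃g G, φ x = y)
    (hdeg : ∃ D : ℕ, ∀ x, (G.neighborSet x).encard ≤ D) (p : ℕ → unitInterval) (v : ℕ → ℝ≥0)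
    (hv : ∀ x y, x ≠ y → 0 < v (G.dist x y))
    (h1 : ∀ x, Summable fun y : {y // y ≠ x} => (v (G.dist x y) : ℝ) * p (G.dist x y))
    (h2 : ∀ x, Summable fun y : {y // y ≠ x} => (v (G.dist x y) : ℝ)⁻¹)
    (x : V) (q : unitInterval) (hq : sInf {q | 0 < q ∧ q < 1 ∧ Percolates G p q} < q) :
    (⨆ (γ : ℝ≥0) (_ : 0 < γ) (q' : unitInterval) (_ : q < q' ∧ q' < 1), lamC G p v x γ q') < ⊤ :=
  main hconn htrans hdeg p v hv h1 h2 x q hq

end Pool.Agent.Results.MP_bc6f6d_pr.Uniform
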